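import Pool.Agent.Q286.IX.Stm
import Pool.Agent.Q177.CG.RawMul

set_option autoImplicit false

/-!
# Project IX, job IX-PROD: the product of two L-functions and the form of the quotient
-/

open Filter Topology Finset MeasureTheory
open scoped ComplexConjugate

namespace Pool.Agent.Q176.IX

open Pool.Agent.TH839.NA (RawT RawTL)
open Pool.Agent.Q286.IX

/-- raw data with the parameters in another form -/
theorem rawT_cast {θ : ℝ} {m m' r : ℕ} {N : ℝ} {a : Fin m → ℂ} {a' : Fin m' → ℂ} {b c : ℕ → ℂ} {X : ℂ → ℂ}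
    (hm : m' = m) (ha : ∀ j : Fin m', a' j = a (Fin.cast hm j)) (h : RawT θ m r N a b c X) :
    RawT θ m' r N a' b c X := by
  subst hm
  have : a' = a := funext fun j => ha j
  rw [this]
  exact h

theorem rawTL_ofFn {θ : ℝ} {m r : ℕ} {N : ℝ} {a : Fin m → ℂ} {b c : ℕ → ℂ} {X : ℂ → ℂ}
    (h : RawT θ m r N a b c X) : RawTL θ (List.ofFn a) r N b c X :=
  rawT_cast List.length_ofFn (fun j => by simp; rfl) h

/-- the product of two L-functions -/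
@[reducible] noncomputable def prodL (L1 L2 : Y23.G.LFun) : Y23.G.LFun where
  m := (List.ofFn L1.a ++ List.ofFn L2.a).length
  r := L1.r + L2.r
  N := L1.N * L2.N
  a := fun j => (List.ofFn L1.a ++ List.ofFn L2.a).get j
  b := LSeries.convolution L1.b L2.b
  c := fun n => L1.c n + L2.c n
  X := fun s => L1.X s * L2.X s
  raw := Pool.Agent.Q177.CG.rawMul _ _ _ _ _ _ _ _ _ _ _ _ _ (rawTL_ofFn L1.raw) (rawTL_ofFn L2.raw)
  str := by
    intro j
    have h1 := List.get_mem (List.ofFn L1.a ++ List.ofFn L2.a) j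
    rcases List.mem_append.1 h1 with h2 | h2
    · obtain ⟨i, hi⟩ := List.mem_ofFn.1 h2
      rw [← hi]
      exact L1.str i
    · obtain ⟨i, hi⟩ := List.mem_ofFn.1 h2
      rw [← hi]
      exact L2.str i

theorem prodL_m (L1 L2 : Y23.G.LFun) : (prodL L1 L2).m = L1.m + L2.m := by
  show (List.ofFn L1.a ++ List.ofFn L2.a).length = _
  rw [List.length_append, List.length_ofFn, List.length_ofFn]

theorem ord_ne (L : Y23.G.LFun) (s : ℂ) : analyticOrderAt L.X s ≠ ⊤ :=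
  H370.Loc.order_ne_top (f := L.X) (K := Set.univ) isPreconnected_univ (fun z _ => (Y23.G.Xd (L := L)).analyticAt z)
    (Set.mem_univ (Y23.G.ctr 0)) (Y23.G.ctr_ne (L := L) 0) (Set.mem_univ _)

theorem mult_mul (L1 L2 : Y23.G.LFun) (s : ℂ) :
    H370.mult (prodL L1 L2).X s = H370.mult L1.X s + H370.mult L2.X s :=
  analyticOrderNatAt_mul ((Y23.G.Xd (L := L1)).analyticAt s) ((Y23.G.Xd (L := L2)).analyticAt s) (ord_ne L1 s) (ord_ne L2 s)

theorem mult_zero (L : Y23.G.LFun) {s : ℂ} (h : L.X s ≠ 0) : H370.mult L.X s = 0 := by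
  unfold H370.mult analyticOrderNatAt
  rw [((Y23.G.Xd (L := L)).analyticAt s).analyticOrderAt_eq_zero.2 h]
  rfl

/-- the term of the form -/
noncomputable def tm (L : Y23.G.LFun) (f : ℝ → ℂ) (s : ℂ) : ℝ :=
  (H370.mult L.X s : ℝ) * (Y23.G.GG f f (s - 1 / 2)).re

theorem tm_zero (L : Y23.G.LFun) (f : ℝ → ℂ) {s : ℂ} (h : L.X s ≠ 0) : tm L f s = 0 := by
  unfold tm
  rw [mult_zero L h, Nat.cast_zero, zero_mul]

theorem GG_le (f : ℝ → ℂ) (w : ℂ) :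
    |(Y23.G.GG f f w).re| ≤ 1 / 2 * (‖Y23.TT f w‖ ^ 2 + ‖Y23.TT f (-conj w)‖ ^ 2) := by
  refine (Complex.abs_re_le_norm _).trans ?_
  unfold Y23.G.GG
  rw [norm_mul, RCLike.norm_conj]
  nlinarith [sq_nonneg (‖Y23.TT f w‖ - ‖Y23.TT f (-conj w)‖)]

theorem tm_summable (L : Y23.G.LFun) {a : ℝ} (ha : 0 < a) {f : ℝ → ℂ} (hf : Y23.G.Hd a f) : Summable (tm L f) := by
  obtain ⟨C, _, h⟩ := Y23.G.dom_of_Hd (D := Y23.G.zd (L := L)) ha
  have hD := (h f hf).1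
  have hR := hD.refl
  have h1 : Summable (fun ρ : Y23.G.Zt (D := Y23.G.zd (L := L)) => tm L f ρ) := by
    refine Summable.of_norm_bounded ((hD.add hR).mul_left (1 / 2)) fun ρ => ?_
    have h2 := mul_le_mul_of_nonneg_left (GG_le f ((ρ : ℂ) - 1 / 2))
      (Nat.cast_nonneg (H370.mult L.X ρ) : (0 : ℝ) ≤ (H370.mult L.X ρ : ℝ))
    unfold tm
    rw [Real.norm_eq_abs, abs_mul, abs_of_nonneg (Nat.cast_nonneg _ : (0 : ℝ) ≤ (H370.mult L.X (ρ : ℂ) : ℝ))]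
    calc _ ≤ _ := h2
      _ = _ := by
        show _ = 1 / 2 * ((H370.mult L.X (ρ : ℂ) : ℝ) * ‖Y23.TT f ((ρ : ℂ) - 1 / 2)‖ ^ 2 +
          (H370.mult L.X (ρ : ℂ) : ℝ) * ‖Y23.TT f (-conj ((ρ : ℂ) - 1 / 2))‖ ^ 2)
        ring
  refine (Subtype.val_injective.summable_iff (f := tm L f) ?_).1 h1
  intro x hx
  refine tm_zero L f ?_
  intro h0
  exact hx ⟨⟨x, h0⟩, rfl⟩

theorem QQ_eq (L : Y23.G.LFun) (f : ℝ → ℂ) : Y23.G.QQ (D := Y23.G.zd (L := L)) f = ∑' s : ℂ, tm L f s := by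
  have h : ∑' ρ : Y23.G.Zt (D := Y23.G.zd (L := L)), tm L f ρ = ∑' s : ℂ, tm L f s := by
    refine Subtype.val_injective.tsum_eq (f := tm L f) ?_
    intro x hx
    by_contra h0
    refine hx (tm_zero L f ?_)
    intro h1
    exact h0 ⟨⟨x, h1⟩, rfl⟩
  exact h

/-- Job IX-PROD. -/
theorem prod : S_Prod := by
  intro L1 L2
  refine ⟨prodL L1 L2, prodL_m L1 L2, rfl, fun s => rfl, ⟨?_, ?_⟩, ?_⟩
  · intro s _
    show |(((H370.mult L1.X s : ℤ) - (H370.mult L2.X s : ℤ) : ℤ) : ℝ)| ≤ (H370.mult (prodL L1 L2).X s : ℝ)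
    rw [mult_mul]
    push_cast
    rw [abs_le]
    have h1 : (0 : ℝ) ≤ (H370.mult L1.X s : ℝ) := Nat.cast_nonneg _
    have h2 : (0 : ℝ) ≤ (H370.mult L2.X s : ℝ) := Nat.cast_nonneg _
    constructor <;> linarith
  · intro s _
    show ((H370.mult L1.X (1 - conj s) : ℤ) - (H370.mult L2.X (1 - conj s) : ℤ) : ℤ) =
      (H370.mult L1.X s : ℤ) - (H370.mult L2.X s : ℤ)
    rw [Y23.G.X_mrefl (L := L1), Y23.G.X_mrefl (L := L2)]
  · intro a f ha hf
    rw [QQ_eq, QQ_eq, ← (tm_summable L1 ha hf).tsum_sub (tm_summable L2 ha hf)]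
    have h : ∑' ρ : Y23.G.Zt (D := Y23.G.zd (L := prodL L1 L2)), (tm L1 f ρ - tm L2 f ρ) = ∑' s : ℂ, (tm L1 f s - tm L2 f s) := by
      refine Subtype.val_injective.tsum_eq (f := fun s : ℂ => tm L1 f s - tm L2 f s) ?_
      intro x hx
      by_contra h0
      refine hx ?_
      have h1 : (prodL L1 L2).X x ≠ 0 := fun h1 => h0 ⟨⟨x, h1⟩, rfl⟩
      have h2 : L1.X x * L2.X x ≠ 0 := h1
      show tm L1 f x - tm L2 f x = 0
      rw [tm_zero L1 f (left_ne_zero_of_mul h2), tm_zero L2 f (right_ne_zero_of_mul h2), sub_zero]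
    rw [← h]
    unfold QS
    refine tsum_congr fun ρ => ?_
    show (((H370.mult L1.X (ρ : ℂ) : ℤ) - (H370.mult L2.X (ρ : ℂ) : ℤ) : ℤ) : ℝ) * (Y23.G.GG f f ((ρ : ℂ) - 1 / 2)).re =
      (H370.mult L1.X (ρ : ℂ) : ℝ) * (Y23.G.GG f f ((ρ : ℂ) - 1 / 2)).re -
        (H370.mult L2.X (ρ : ℂ) : ℝ) * (Y23.G.GG f f ((ρ : ℂ) - 1 / 2)).re
    push_cast
    ring

end Pool.Agent.Q176.IX
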